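import Pool.Agent.Helper4.IL.Defs

/-!
# Blocks `(x, y, y, x, 0, 0)`
-/

set_option autoImplicit false

namespace Pool.Agent.Helper4.IL

/-- The sequence of the blocks `(X n, Y n, Y n, X n, 0, 0)`. -/
def bs (X Y : ℕ → ℚ) (m : ℕ) : ℚ :=
  if m % 6 = 0 ∨ m % 6 = 3 then X (m / 6) else if m % 6 = 1 ∨ m % 6 = 2 then Y (m / 6) else 0

/-- The map on the pairs `(x, y)`. -/
def tt (q : ℚ × ℚ) : ℚ × ℚ := (q.1 ^ 2, q.2 ^ 2 - q.1 * q.2)

theorem bs_eq (X Y : ℕ → ℚ) (n r : ℕ) (hr : r < 6) :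
    bs X Y (6 * n + r) = if r = 0 ∨ r = 3 then X n else if r = 1 ∨ r = 2 then Y n else 0 := by
  have h1 : (6 * n + r) % 6 = r := by omega
  have h2 : (6 * n + r) / 6 = n := by omega
  rw [bs, h1, h2]

theorem LC_bs (X Y : ℕ → ℚ) :
    LC (bs X Y) = bs (fun n => X n ^ 2) (fun n => Y n ^ 2 - X n * Y n) := by
  funext m
  obtain ⟨n, r, hr, rfl⟩ : ∃ n r, r < 6 ∧ m = 6 * n + r :=
    ⟨m / 6, m % 6, Nat.mod_lt _ (by norm_num), (Nat.div_add_mod m 6).symm⟩
  rw [bs_eq _ _ _ _ hr]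
  unfold LC
  rw [bs_eq _ _ _ _ hr]
  interval_cases r
  · have h1 : bs X Y (6 * n + 0 + 1) = Y n := by rw [bs_eq X Y n 1 (by norm_num)]; simp
    have h2 : (if 6 * n + 0 = 0 then 0 else bs X Y (6 * n + 0 - 1)) = 0 := by
      split_ifs with h
      · rfl
      · obtain ⟨k, rfl⟩ : ∃ k, n = k + 1 := ⟨n - 1, by omega⟩
        rw [show 6 * (k + 1) + 0 - 1 = 6 * k + 5 by omega, bs_eq X Y k 5 (by norm_num)]
        simp
    rw [h1, h2]
    simp
  · have h1 : bs X Y (6 * n + 1 + 1) = Y n := by rw [bs_eq X Y n 2 (by norm_num)]; simp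
    have h2 : (if 6 * n + 1 = 0 then 0 else bs X Y (6 * n + 1 - 1)) = X n := by
      rw [if_neg (by omega), show 6 * n + 1 - 1 = 6 * n + 0 by omega, bs_eq X Y n 0 (by norm_num)]
      simp
    rw [h1, h2]
    simp
  · have h1 : bs X Y (6 * n + 2 + 1) = X n := by rw [bs_eq X Y n 3 (by norm_num)]; simp
    have h2 : (if 6 * n + 2 = 0 then 0 else bs X Y (6 * n + 2 - 1)) = Y n := by
      rw [if_neg (by omega), show 6 * n + 2 - 1 = 6 * n + 1 by omega, bs_eq X Y n 1 (by norm_num)]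
      simp
    rw [h1, h2]
    simp [mul_comm]
  · have h1 : bs X Y (6 * n + 3 + 1) = 0 := by rw [bs_eq X Y n 4 (by norm_num)]; simp
    rw [h1, mul_zero]
    simp
  · have h1 : bs X Y (6 * n + 4 + 1) = 0 := by rw [bs_eq X Y n 5 (by norm_num)]; simp
    rw [h1, mul_zero]
    simp
  · have h2 : (if 6 * n + 5 = 0 then 0 else bs X Y (6 * n + 5 - 1)) = 0 := by
      rw [if_neg (by omega), show 6 * n + 5 - 1 = 6 * n + 4 by omega, bs_eq X Y n 4 (by norm_num)]
      simp
    rw [h2, zero_mul]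
    simp

theorem iter_LC_bs (X Y : ℕ → ℚ) (i : ℕ) :
    LC^[i] (bs X Y) = bs (fun n => (tt^[i] (X n, Y n)).1) (fun n => (tt^[i] (X n, Y n)).2) := by
  induction i with
  | zero => rfl
  | succ i ih =>
    rw [Function.iterate_succ_apply', ih, LC_bs]
    congr 1
    · funext n
      rw [Function.iterate_succ_apply']
      rfl
    · funext n
      rw [Function.iterate_succ_apply']
      rfl

theorem bs_nonneg_iff (X Y : ℕ → ℚ) : (∀ m, 0 ≤ bs X Y m) ↔ ∀ n, 0 ≤ X n ∧ 0 ≤ Y n := by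
  constructor
  · intro h n
    have h0 := h (6 * n + 0)
    have h1 := h (6 * n + 1)
    rw [bs_eq _ _ _ _ (by norm_num)] at h0 h1
    simp only [true_or, if_true] at h0
    norm_num at h1
    exact ⟨h0, h1⟩
  · intro h m
    rw [bs]
    split_ifs
    · exact (h _).1
    · exact (h _).2
    · exact le_rfl

/-- above the threshold -/
theorem tt_ge {x y : ℚ} (hx : 0 ≤ x) (hy : 2 * x ≤ y) (i : ℕ) :
    0 ≤ (tt^[i] (x, y)).1 ∧ 2 * (tt^[i] (x, y)).1 ≤ (tt^[i] (x, y)).2 := by
  induction i with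
  | zero => exact ⟨hx, hy⟩
  | succ i ih =>
    rw [Function.iterate_succ_apply']
    obtain ⟨h1, h2⟩ := ih
    generalize tt^[i] (x, y) = q at h1 h2
    refine ⟨sq_nonneg _, ?_⟩
    show 2 * q.1 ^ 2 ≤ q.2 ^ 2 - q.1 * q.2
    nlinarith [mul_nonneg h1 h1, mul_nonneg h1 (sub_nonneg.2 h2), mul_nonneg (sub_nonneg.2 h2) (sub_nonneg.2 h2)]

/-- near the threshold the first steps are not negative -/
theorem tt_near (k : ℕ) : ∀ {x y : ℚ}, 0 < x → 3 ^ k * (2 * x - y) ≤ x → ∀ i ≤ k + 1,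
    0 ≤ (tt^[i] (x, y)).1 ∧ 0 ≤ (tt^[i] (x, y)).2 := by
  induction k with
  | zero =>
    intro x y hx h i hi
    rw [pow_zero, one_mul] at h
    have hy : x ≤ y := by linarith
    interval_cases i
    · exact ⟨hx.le, hx.le.trans hy⟩
    · refine ⟨sq_nonneg _, ?_⟩
      show 0 ≤ y ^ 2 - x * y
      nlinarith
  | succ k ih =>
    intro x y hx h i hi
    rcases le_or_gt (2 * x) y with h2 | h2
    · have := tt_ge hx.le h2 i
      exact ⟨this.1, by linarith [this.1, this.2]⟩
    · have h3 : (1 : ℚ) ≤ 3 ^ (k + 1) := one_le_pow₀ (by norm_num)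
      have hy : x ≤ y := by nlinarith
      cases i with
      | zero => exact ⟨hx.le, hx.le.trans hy⟩
      | succ i =>
        rw [Function.iterate_succ_apply]
        refine ih (x := x ^ 2) (y := y ^ 2 - x * y) (by positivity) ?_ i (by omega)
        have h4 : 3 ^ (k + 1) * (2 * x - y) * x ≤ x * x := mul_le_mul_of_nonneg_right h hx.le
        have h5 : 2 * x ^ 2 - (y ^ 2 - x * y) = (2 * x - y) * (x + y) := by ring
        rw [h5]
        have h6 : (2 * x - y) * (x + y) ≤ (2 * x - y) * (3 * x) :=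
          mul_le_mul_of_nonneg_left (by linarith) (by linarith)
        have h7 : (0 : ℚ) < 3 ^ k := by positivity
        calc (3 : ℚ) ^ k * ((2 * x - y) * (x + y)) ≤ 3 ^ k * ((2 * x - y) * (3 * x)) :=
              mul_le_mul_of_nonneg_left h6 h7.le
          _ = 3 ^ (k + 1) * (2 * x - y) * x := by ring
          _ ≤ x * x := h4
          _ = x ^ 2 := by ring

theorem no_golden (r : ℚ) : r ^ 2 - r ≠ 1 := by
  intro h
  have h1 : (2 * r - 1) * (2 * r - 1) = 5 := by nlinarith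
  have h2 : IsSquare ((5 : ℕ) : ℚ) := ⟨2 * r - 1, by rw [h1]; norm_num⟩
  have h3 : IsSquare (5 : ℕ) := by
    rw [Rat.isSquare_natCast_iff] at h2
    exact h2
  obtain ⟨n, hn⟩ := h3
  have h4 : n < 3 := by nlinarith
  interval_cases n <;> omega

/-- below the threshold some iterate is negative -/
theorem tt_lt {x y : ℚ} (hx : 0 < x) (hxy : x < y) (hy : y < 2 * x) : ∃ i, (tt^[i] (x, y)).2 < 0 := by
  by_contra hcon
  push Not at hcon
  have key : ∀ i, 0 < (tt^[i] (x, y)).1 ∧ (tt^[i] (x, y)).1 < (tt^[i] (x, y)).2 ∧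
      2 ^ i * (2 * x - y) * (tt^[i] (x, y)).1 ≤ (2 * (tt^[i] (x, y)).1 - (tt^[i] (x, y)).2) * x := by
    intro i
    induction i with
    | zero =>
      refine ⟨hx, hxy, ?_⟩
      rw [Function.iterate_zero, id_eq, pow_zero, one_mul]
    | succ i ih =>
      have hc1 := hcon (i + 1)
      have hc2 := hcon (i + 2)
      rw [Function.iterate_succ_apply'] at hc1 ⊢
      rw [Function.iterate_succ_apply', Function.iterate_succ_apply'] at hc2
      obtain ⟨h1, h2, h3⟩ := ih
      generalize tt^[i] (x, y) = q at h1 h2 h3 hc1 hc2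
      have hd : 0 < 2 * x - y := by linarith
      have hq : 0 < 2 * q.1 - q.2 := by
        by_contra hh
        have : 0 < 2 ^ i * (2 * x - y) * q.1 := by positivity
        nlinarith
      have hu : (tt q).1 = q.1 ^ 2 := rfl
      have hv : (tt q).2 = q.2 * (q.2 - q.1) := by
        show q.2 ^ 2 - q.1 * q.2 = _
        ring
      have hq2 : 0 < q.2 := h1.trans h2
      have hv0 : 0 < (tt q).2 := by
        rw [hv]
        exact mul_pos hq2 (by linarith)
      have hw : 0 ≤ (tt q).2 * ((tt q).2 - (tt q).1) := by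
        have : (tt (tt q)).2 = (tt q).2 * ((tt q).2 - (tt q).1) := by
          show (tt q).2 ^ 2 - (tt q).1 * (tt q).2 = _
          ring
        rw [← this]
        exact hc2
      have hge : (tt q).1 ≤ (tt q).2 := by
        by_contra hh
        push Not at hh
        have := mul_neg_of_pos_of_neg hv0 (sub_neg.2 hh)
        linarith
      have hne : (tt q).1 ≠ (tt q).2 := by
        intro hh
        apply no_golden (q.2 / q.1)
        rw [hu, hv] at hh
        field_simp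
        linarith
      refine ⟨by rw [hu]; positivity, lt_of_le_of_ne hge hne, ?_⟩
      have h5 : 2 * (tt q).1 - (tt q).2 = (2 * q.1 - q.2) * (q.1 + q.2) := by
        rw [hu, hv]
        ring
      rw [h5, hu]
      calc 2 ^ (i + 1) * (2 * x - y) * q.1 ^ 2 = (2 ^ i * (2 * x - y) * q.1) * (2 * q.1) := by ring
        _ ≤ ((2 * q.1 - q.2) * x) * (2 * q.1) := mul_le_mul_of_nonneg_right h3 (by positivity)
        _ ≤ ((2 * q.1 - q.2) * x) * (q.1 + q.2) :=
            mul_le_mul_of_nonneg_left (by linarith) (by positivity)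
        _ = (2 * q.1 - q.2) * (q.1 + q.2) * x := by ring
  have hd : 0 < 2 * x - y := by linarith
  obtain ⟨i, hi⟩ := pow_unbounded_of_one_lt (x / (2 * x - y)) (one_lt_two : (1 : ℚ) < 2)
  obtain ⟨h1, h2, h3⟩ := key i
  rw [div_lt_iff₀ hd] at hi
  have h4 : (2 * (tt^[i] (x, y)).1 - (tt^[i] (x, y)).2) * x < (tt^[i] (x, y)).1 * x :=
    mul_lt_mul_of_pos_right (by linarith) hx
  have h5 : x * (tt^[i] (x, y)).1 < 2 ^ i * (2 * x - y) * (tt^[i] (x, y)).1 :=
    mul_lt_mul_of_pos_right hi h1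
  linarith

end Pool.Agent.Helper4.IL
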