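import Pool.Agent.Helper4.IL.Defs

/-!
# An admissible description determines the sequence
-/

set_option autoImplicit false

namespace Pool.Agent.Helper4.IL

/-- the solution -/
noncomputable def sol (x : Inp) (n : ℕ) : ℚ :=
  if h : n < x.2.length then
    ((x.2.getD n (0, 0)).1 : ℚ) / (((x.2.getD n (0, 0)).2 : ℚ) + 1)
  else
    -(∑ j : Fin x.2.length, ev (x.1.getD j []) ((n - x.2.length : ℕ) : ℚ) *
      sol x (n - x.2.length + j)) / ev (x.1.getD x.2.length []) ((n - x.2.length : ℕ) : ℚ)
termination_by n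
decreasing_by
  have := j.2
  omega

theorem sol_add (x : Inp) (n : ℕ) : sol x (n + x.2.length) =
    -(∑ j : Fin x.2.length, ev (x.1.getD j []) (n : ℚ) * sol x (n + j)) /
      ev (x.1.getD x.2.length []) (n : ℚ) := by
  conv_lhs => rw [sol]
  rw [dif_neg (by omega), Nat.add_sub_cancel]

theorem sol_sol {x : Inp} (hx : Std x) : Sol x (sol x) := by
  constructor
  · intro n
    have h0 := hx.2 n
    rw [hx.1, Finset.sum_range_succ, sol_add, mul_div_cancel₀ _ h0,
      Finset.sum_range (fun j => ev (x.1.getD j []) (n : ℚ) * sol x (n + j))]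
    ring
  · intro k hk
    rw [sol, dif_pos hk]

theorem sol_unique {x : Inp} (hx : Std x) {a b : ℕ → ℚ} (ha : Sol x a) (hb : Sol x b) : a = b := by
  funext n
  induction n using Nat.strong_induction_on with
  | _ n ih =>
    rcases lt_or_ge n x.2.length with h | h
    · rw [ha.2 n h, hb.2 n h]
    · obtain ⟨m, rfl⟩ := Nat.exists_eq_add_of_le' h
      have h1 := ha.1 m
      have h2 := hb.1 m
      rw [hx.1, Finset.sum_range_succ] at h1 h2
      have h3 : ∑ j ∈ Finset.range x.2.length, ev (x.1.getD j []) (m : ℚ) * a (m + j) =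
          ∑ j ∈ Finset.range x.2.length, ev (x.1.getD j []) (m : ℚ) * b (m + j) := by
        refine Finset.sum_congr rfl fun j hj => ?_
        rw [ih (m + j) (Nat.add_lt_add_left (Finset.mem_range.1 hj) m)]
      rw [h3] at h1
      have h4 : ev (x.1.getD x.2.length []) (m : ℚ) * a (m + x.2.length) =
          ev (x.1.getD x.2.length []) (m : ℚ) * b (m + x.2.length) := by linarith
      exact mul_left_cancel₀ (hx.2 m) h4

theorem existsUnique_sol {x : Inp} (hx : Std x) : ∃! a, Sol x a :=
  ⟨sol x, sol_sol hx, fun _ hb => sol_unique hx hb (sol_sol hx)⟩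

end Pool.Agent.Helper4.IL
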