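import Pool.Agent.Helper4.IL.Sem
import Pool.Agent.Helper4.IL.Blk
import Pool.Agent.Helper4.IL.Uniq

/-!
# The reduction for constant coefficients
-/

set_option autoImplicit false

namespace Pool.Agent.Helper4.IL

/-- All coefficient polynomials are constants. -/
def CF (x : Inp) : Prop := ∀ p ∈ x.1, p.length ≤ 1

/-- the coefficients -/
def cf (x : Inp) (j : ℕ) : ℤ := (x.1.getD j []).getD 0 0

/-- the product of the denominators -/
def WW (x : Inp) : ℕ := x.2.foldr (fun p acc => (p.2 + 1) * acc) 1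

/-- the initial values times `WW` -/
def zi (x : Inp) (k : ℕ) : ℤ :=
  (x.2.getD k (0, 0)).1 * ((WW x / ((x.2.getD k (0, 0)).2 + 1) : ℕ) : ℤ)

/-- the sum of the products -/
def su (x : Inp) : ℤ := (List.range x.2.length).foldr (fun j acc => cf x j * zi x j + acc) 0

/-- the values times `WW` and the square of the last coefficient -/
def vi (x : Inp) (k : ℕ) : ℤ :=
  if k < x.2.length then zi x k * (cf x x.2.length * cf x x.2.length) else -(cf x x.2.length * su x)

/-- bound for the coefficients -/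
def RR (x : Inp) : ℕ := x.1.foldr (fun p acc => (p.getD 0 0).natAbs + acc) 1

/-- bound for the initial values -/
def BB (K : ℕ) (x : Inp) : ℕ :=
  3 ^ (K + 1) * (List.range (x.2.length + 1)).foldr (fun k acc => (vi x k).natAbs + acc) 1

/-- the majorant -/
def MM (K : ℕ) (x : Inp) (n : ℕ) : ℤ := ((BB K x * RR x ^ n : ℕ) : ℤ)

/-- the new coefficients -/
def qq (x : Inp) (j : ℕ) : ℤ := (if j = 0 then 0 else cf x (j - 1)) - (RR x : ℤ) * cf x j

/-- the new initial values -/
def bl (K : ℕ) (x : Inp) (n r : ℕ) : ℤ :=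
  if r = 0 ∨ r = 3 then MM K x n else if r = 1 ∨ r = 2 then 2 * MM K x n + vi x n else 0

/-- the reduction -/
def redC (K : ℕ) (x : Inp) : Inp :=
  ((List.range (6 * (x.2.length + 1) + 1)).map fun i => if i % 6 = 0 then [qq x (i / 6)] else [],
    (List.range (6 * (x.2.length + 1))).map fun i => (bl K x (i / 6) (i % 6), 0))

theorem foldr_range_sum {M : Type} [AddCommMonoid M] (n : ℕ) (f : ℕ → M) (c : M) :
    (List.range n).foldr (fun k acc => f k + acc) c = ∑ k ∈ Finset.range n, f k + c := by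
  induction n generalizing c with
  | zero => simp
  | succ n ih =>
    rw [List.range_succ, List.foldr_append, List.foldr_cons, List.foldr_nil, ih,
      Finset.sum_range_succ, add_assoc]

theorem ev_cf {x : Inp} (hx : CF x) (j : ℕ) (t : ℚ) : ev (x.1.getD j []) t = cf x j := by
  have h : (x.1.getD j []).length ≤ 1 := by
    by_cases hj : j < x.1.length
    · rw [List.getD_eq_getElem _ _ hj]
      exact hx _ (List.getElem_mem hj)
    · rw [List.getD_eq_default _ _ (not_lt.1 hj)]
      exact Nat.zero_le _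
  rw [cf]
  generalize x.1.getD j [] = p at h
  match p, h with
  | [], _ => simp [ev]
  | [c], _ => simp [ev]

theorem dvd_WW {l : List (ℤ × ℕ)} {p : ℤ × ℕ} (h : p ∈ l) :
    p.2 + 1 ∣ l.foldr (fun p acc => (p.2 + 1) * acc) 1 := by
  induction l with
  | nil => simp at h
  | cons q l ih =>
    rw [List.foldr_cons]
    rcases List.mem_cons.1 h with rfl | h
    · exact dvd_mul_right _ _
    · exact (ih h).mul_left _

theorem WW_pos (x : Inp) : 0 < WW x := by
  rw [WW]
  induction x.2 with
  | nil => exact Nat.one_pos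
  | cons q l ih =>
    rw [List.foldr_cons]
    positivity

theorem zi_eq {x : Inp} {a : ℕ → ℚ} (ha : Sol x a) {k : ℕ} (hk : k < x.2.length) :
    (zi x k : ℚ) = a k * WW x := by
  rw [ha.2 k hk, zi]
  have h1 : x.2.getD k (0, 0) ∈ x.2 := by
    rw [List.getD_eq_getElem _ _ hk]
    exact List.getElem_mem hk
  obtain ⟨c, hc⟩ := dvd_WW h1
  have h2 : WW x = ((x.2.getD k (0, 0)).2 + 1) * c := hc
  rw [h2, Nat.mul_div_cancel_left _ (Nat.succ_pos _)]
  push_cast
  have h3 : (((x.2.getD k (0, 0)).2 : ℚ) + 1) ≠ 0 := by positivity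
  field_simp

theorem RR_eq (l : List (List ℤ)) :
    l.foldr (fun p acc => (p.getD 0 0).natAbs + acc) 1 =
      ∑ j ∈ Finset.range l.length, ((l.getD j []).getD 0 0).natAbs + 1 := by
  induction l with
  | nil => simp
  | cons p l ih =>
    rw [List.foldr_cons, ih, List.length_cons, Finset.sum_range_succ']
    simp only [List.getD_cons_succ, List.getD_cons_zero]
    omega

variable {x : Inp}

theorem one_le_RR (x : Inp) : 1 ≤ RR x := by
  rw [RR, RR_eq]
  omega

/-- the scaled sequence -/
def AA (x : Inp) (a : ℕ → ℚ) (n : ℕ) : ℚ :=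
  a n * (WW x * ((cf x x.2.length : ℚ) * (cf x x.2.length : ℚ)))

theorem cf_ne (hx : Std x) (hc : CF x) : cf x x.2.length ≠ 0 := by
  have := hx.2 0
  rw [ev_cf hc] at this
  exact_mod_cast this

theorem rec_AA (hx : Std x) (hc : CF x) {a : ℕ → ℚ} (ha : Sol x a) (n : ℕ) :
    ∑ j ∈ Finset.range (x.2.length + 1), (cf x j : ℚ) * AA x a (n + j) = 0 := by
  have h := ha.1 n
  rw [hx.1] at h
  simp only [ev_cf hc] at h
  simp only [AA]
  rw [← zero_mul ((WW x : ℚ) * ((cf x x.2.length : ℚ) * (cf x x.2.length : ℚ))), ← h,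
    Finset.sum_mul]
  refine Finset.sum_congr rfl fun j _ => ?_
  ring

theorem AA_vi (hx : Std x) (hc : CF x) {a : ℕ → ℚ} (ha : Sol x a) {n : ℕ} (hn : n ≤ x.2.length) :
    AA x a n = vi x n := by
  rw [vi, AA]
  split_ifs with h
  · push_cast
    rw [zi_eq ha h]
    ring
  · obtain rfl : n = x.2.length := le_antisymm hn (not_lt.1 h)
    have h1 := ha.1 0
    rw [hx.1, Finset.sum_range_succ] at h1
    simp only [ev_cf hc, zero_add] at h1
    have h2 : (su x : ℚ) = (∑ j ∈ Finset.range x.2.length, (cf x j : ℚ) * a j) * WW x := by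
      rw [su, foldr_range_sum, add_zero, Finset.sum_mul]
      push_cast
      refine Finset.sum_congr rfl fun j hj => ?_
      rw [zi_eq ha (Finset.mem_range.1 hj)]
      ring
    push_cast
    rw [h2]
    have h3 : (cf x x.2.length : ℚ) * a x.2.length = -∑ j ∈ Finset.range x.2.length, (cf x j : ℚ) * a j := by
      linarith
    calc a x.2.length * (WW x * ((cf x x.2.length : ℚ) * cf x x.2.length))
        = ((cf x x.2.length : ℚ) * a x.2.length) * (WW x * cf x x.2.length) := by ring
      _ = _ := by rw [h3]; ring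

theorem AA_le (hx : Std x) (hc : CF x) {a : ℕ → ℚ} (ha : Sol x a) (n : ℕ) :
    |AA x a n| ≤ ((List.range (x.2.length + 1)).foldr (fun k acc => (vi x k).natAbs + acc) 1 : ℕ) *
      (RR x : ℚ) ^ n := by
  rw [foldr_range_sum]
  set B : ℕ := ∑ k ∈ Finset.range (x.2.length + 1), (vi x k).natAbs + 1 with hB
  have hR : (1 : ℚ) ≤ RR x := by exact_mod_cast one_le_RR x
  induction n using Nat.strong_induction_on with
  | _ n ih =>
    rcases le_or_gt n x.2.length with h | h
    · have h1 : |AA x a n| ≤ B := by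
        rw [AA_vi hx hc ha h]
        have h2 : (vi x n).natAbs ≤ ∑ k ∈ Finset.range (x.2.length + 1), (vi x k).natAbs :=
          Finset.single_le_sum (f := fun k => (vi x k).natAbs) (fun _ _ => Nat.zero_le _)
            (Finset.mem_range.2 (Nat.lt_succ_of_le h))
        have h3 : |(vi x n : ℚ)| = ((vi x n).natAbs : ℚ) := by
          rw [← Int.cast_abs, Int.abs_eq_natAbs]
          rfl
        rw [h3]
        exact_mod_cast h2.trans (Nat.le_succ _)
      exact h1.trans (le_mul_of_one_le_right (by positivity) (one_le_pow₀ hR))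
    · obtain ⟨m, rfl⟩ := Nat.exists_eq_add_of_lt h
      -- n = d + m + 1
      have h1 := rec_AA hx hc ha (m + 1)
      rw [Finset.sum_range_succ] at h1
      have hcd : (1 : ℚ) ≤ |(cf x x.2.length : ℚ)| := by
        have := cf_ne hx hc
        rw [← Int.cast_abs]
        exact_mod_cast Int.one_le_abs this
      have h2 : |AA x a (x.2.length + m + 1)| ≤
          |(cf x x.2.length : ℚ) * AA x a (m + 1 + x.2.length)| := by
        rw [abs_mul, show x.2.length + m + 1 = m + 1 + x.2.length by ring]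
        exact le_mul_of_one_le_left (abs_nonneg _) hcd
      have h3 : (cf x x.2.length : ℚ) * AA x a (m + 1 + x.2.length) =
          -∑ j ∈ Finset.range x.2.length, (cf x j : ℚ) * AA x a (m + 1 + j) := by linarith
      have h4 : ∑ j ∈ Finset.range x.2.length, |(cf x j : ℚ)| ≤ RR x := by
        rw [RR, RR_eq, hx.1, Finset.sum_range_succ]
        push_cast
        have h5 : ∀ j, |(cf x j : ℚ)| = (((x.1.getD j []).getD 0 0).natAbs : ℚ) := by
          intro j
          rw [← Int.cast_abs, Int.abs_eq_natAbs]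
          rfl
        rw [Finset.sum_congr rfl fun j _ => h5 j]
        linarith [show (0 : ℚ) ≤ (((x.1.getD x.2.length []).getD 0 0).natAbs : ℚ) from by positivity]
      calc |AA x a (x.2.length + m + 1)|
          ≤ |∑ j ∈ Finset.range x.2.length, (cf x j : ℚ) * AA x a (m + 1 + j)| := by
            rw [h3, abs_neg] at h2
            exact h2
        _ ≤ ∑ j ∈ Finset.range x.2.length, |(cf x j : ℚ)| * (B * (RR x : ℚ) ^ (x.2.length + m)) := by
            refine (Finset.abs_sum_le_sum_abs _ _).trans (Finset.sum_le_sum fun j hj => ?_)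
            have hj' := Finset.mem_range.1 hj
            rw [abs_mul]
            refine mul_le_mul_of_nonneg_left ?_ (abs_nonneg _)
            refine (ih (m + 1 + j) (by omega)).trans ?_
            refine mul_le_mul_of_nonneg_left ?_ (by positivity)
            exact pow_le_pow_right₀ hR (by omega)
        _ = (∑ j ∈ Finset.range x.2.length, |(cf x j : ℚ)|) * (B * (RR x : ℚ) ^ (x.2.length + m)) := by
            rw [Finset.sum_mul]
        _ ≤ RR x * (B * (RR x : ℚ) ^ (x.2.length + m)) :=
            mul_le_mul_of_nonneg_right h4 (by positivity)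
        _ = B * (RR x : ℚ) ^ (x.2.length + m + 1) := by ring

theorem cf_out (hx : Std x) : cf x (x.2.length + 1) = 0 := by
  have h : x.1.getD (x.2.length + 1) [] = [] := List.getD_eq_default _ _ hx.1.le
  rw [cf, h]
  rfl

theorem sum_qq (hx : Std x) (s : ℕ → ℚ) (n : ℕ) :
    ∑ k ∈ Finset.range (x.2.length + 2), (qq x k : ℚ) * s (n + k) =
      ∑ k ∈ Finset.range (x.2.length + 1), (cf x k : ℚ) * s (n + 1 + k) -
        RR x * ∑ k ∈ Finset.range (x.2.length + 1), (cf x k : ℚ) * s (n + k) := by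
  have h1 : ∑ k ∈ Finset.range (x.2.length + 2), (qq x k : ℚ) * s (n + k) =
      ∑ k ∈ Finset.range (x.2.length + 2), ((if k = 0 then 0 else cf x (k - 1) : ℤ) : ℚ) * s (n + k) -
      RR x * ∑ k ∈ Finset.range (x.2.length + 2), (cf x k : ℚ) * s (n + k) := by
    rw [Finset.mul_sum, ← Finset.sum_sub_distrib]
    refine Finset.sum_congr rfl fun k _ => ?_
    rw [qq]
    push_cast
    ring
  rw [h1]
  congr 1
  · rw [Finset.sum_range_succ']
    simp only [if_true, Int.cast_zero, zero_mul, add_zero]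
    refine Finset.sum_congr rfl fun k _ => ?_
    rw [if_neg (Nat.succ_ne_zero k), Nat.add_sub_cancel, show n + (k + 1) = n + 1 + k by ring]
  · rw [Finset.sum_range_succ, cf_out hx, Int.cast_zero, zero_mul, add_zero]

theorem redC_fst (K : ℕ) (x : Inp) {i : ℕ} (hi : i < 6 * (x.2.length + 1) + 1) :
    (redC K x).1.getD i [] = if i % 6 = 0 then [qq x (i / 6)] else [] :=
  getD_map_range _ (fun i => if i % 6 = 0 then [qq x (i / 6)] else []) [] hi

theorem redC_snd (K : ℕ) (x : Inp) {i : ℕ} (hi : i < 6 * (x.2.length + 1)) :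
    (redC K x).2.getD i (0, 0) = (bl K x (i / 6) (i % 6), 0) :=
  getD_map_range _ (fun i => (bl K x (i / 6) (i % 6), 0)) (0, 0) hi

theorem redC_len (K : ℕ) (x : Inp) : (redC K x).1.length = 6 * (x.2.length + 1) + 1 ∧
    (redC K x).2.length = 6 * (x.2.length + 1) := by
  constructor <;> simp [redC]

theorem cf_redC (K : ℕ) (x : Inp) : CF (redC K x) := by
  intro p hp
  simp only [redC, List.mem_map] at hp
  obtain ⟨i, -, rfl⟩ := hp
  split_ifs <;> simp

theorem std_redC (K : ℕ) (hx : Std x) (hc : CF x) : Std (redC K x) := by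
  obtain ⟨h1, h2⟩ := redC_len K x
  refine ⟨by rw [h1, h2], fun n => ?_⟩
  rw [h2, redC_fst K x (Nat.lt_succ_self _), if_pos (Nat.mul_mod_right _ _),
    Nat.mul_div_cancel_left _ (by norm_num)]
  have h3 : ev [qq x (x.2.length + 1)] (n : ℚ) = cf x x.2.length := by
    rw [qq, if_neg (Nat.succ_ne_zero _), Nat.add_sub_cancel, cf_out hx]
    simp [ev]
  rw [h3]
  exact_mod_cast cf_ne hx hc

/-- the outer entries -/
def XX (K : ℕ) (x : Inp) (n : ℕ) : ℚ := (BB K x : ℚ) * (RR x : ℚ) ^ n

/-- the inner entries -/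
def YY (K : ℕ) (x : Inp) (a : ℕ → ℚ) (n : ℕ) : ℚ := 2 * XX K x n + AA x a n

theorem rec_XX (K : ℕ) (hx : Std x) (n : ℕ) :
    ∑ k ∈ Finset.range (x.2.length + 2), (qq x k : ℚ) * XX K x (n + k) = 0 := by
  rw [sum_qq hx, Finset.mul_sum, ← Finset.sum_sub_distrib]
  refine Finset.sum_eq_zero fun k _ => ?_
  rw [XX, XX]
  ring

theorem rec_YY (K : ℕ) (hx : Std x) (hc : CF x) {a : ℕ → ℚ} (ha : Sol x a) (n : ℕ) :
    ∑ k ∈ Finset.range (x.2.length + 2), (qq x k : ℚ) * YY K x a (n + k) = 0 := by
  have h1 : ∑ k ∈ Finset.range (x.2.length + 2), (qq x k : ℚ) * AA x a (n + k) = 0 := by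
    rw [sum_qq hx, rec_AA hx hc ha, rec_AA hx hc ha]
    ring
  have h2 := rec_XX K hx n
  calc ∑ k ∈ Finset.range (x.2.length + 2), (qq x k : ℚ) * YY K x a (n + k)
      = 2 * ∑ k ∈ Finset.range (x.2.length + 2), (qq x k : ℚ) * XX K x (n + k) +
        ∑ k ∈ Finset.range (x.2.length + 2), (qq x k : ℚ) * AA x a (n + k) := by
        rw [Finset.mul_sum, ← Finset.sum_add_distrib]
        refine Finset.sum_congr rfl fun k _ => ?_
        rw [YY]
        ring
    _ = 0 := by rw [h1, h2]; ring

theorem sol_redC (K : ℕ) (hx : Std x) (hc : CF x) {a : ℕ → ℚ} (ha : Sol x a) :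
    Sol (redC K x) (bs (XX K x) (YY K x a)) := by
  obtain ⟨h1, h2⟩ := redC_len K x
  constructor
  · intro N
    rw [h1]
    have h3 : ∑ j ∈ Finset.range (6 * (x.2.length + 1) + 1),
        ev ((redC K x).1.getD j []) N * bs (XX K x) (YY K x a) (N + j) =
        ∑ k ∈ Finset.range (x.2.length + 2), (qq x k : ℚ) * bs (XX K x) (YY K x a) (N + 6 * k) := by
      symm
      refine Finset.sum_of_injOn (fun k => 6 * k) ?_ ?_ ?_ ?_
      · intro k _ k' _ h
        exact Nat.eq_of_mul_eq_mul_left (by norm_num) h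
      · intro k hk
        simp only [Finset.coe_range, Set.mem_Iio] at hk ⊢
        omega
      · intro j hj hj'
        have hj1 := Finset.mem_range.1 hj
        rw [redC_fst K x hj1]
        by_cases h : j % 6 = 0
        · exfalso
          apply hj'
          obtain ⟨k, rfl⟩ := Nat.dvd_of_mod_eq_zero h
          refine ⟨k, ?_, rfl⟩
          simp only [Finset.coe_range, Set.mem_Iio]
          omega
        · rw [if_neg h]
          simp [ev]
      · intro k hk
        have hk1 := Finset.mem_range.1 hk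
        rw [redC_fst K x (by omega), if_pos (Nat.mul_mod_right _ _),
          Nat.mul_div_cancel_left _ (by norm_num)]
        simp [ev]
    rw [h3]
    obtain ⟨n, r, hr, rfl⟩ : ∃ n r, r < 6 ∧ N = 6 * n + r :=
      ⟨N / 6, N % 6, Nat.mod_lt _ (by norm_num), (Nat.div_add_mod N 6).symm⟩
    have h4 : ∀ k, bs (XX K x) (YY K x a) (6 * n + r + 6 * k) =
        if r = 0 ∨ r = 3 then XX K x (n + k) else if r = 1 ∨ r = 2 then YY K x a (n + k) else 0 := by
      intro k
      rw [show 6 * n + r + 6 * k = 6 * (n + k) + r by ring, bs_eq _ _ _ _ hr]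
    simp only [h4]
    split_ifs
    · exact rec_XX K hx n
    · exact rec_YY K hx hc ha n
    · simp
  · intro k hk
    rw [h2] at hk
    rw [redC_snd K x hk, bs, bl]
    have h5 : k / 6 ≤ x.2.length := by omega
    simp only [Nat.cast_zero, zero_add, div_one]
    split_ifs
    · rw [MM, XX]
      push_cast
      ring
    · rw [MM, YY, XX, AA_vi hx hc ha h5]
      push_cast
      ring
    · simp

theorem BB_pos (K : ℕ) (x : Inp) : 0 < BB K x := by
  rw [BB, foldr_range_sum]
  positivity

theorem XX_pos (K : ℕ) (x : Inp) (n : ℕ) : 0 < XX K x n := by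
  have h1 : (0 : ℚ) < BB K x := by exact_mod_cast BB_pos K x
  have h2 : (0 : ℚ) < RR x := by exact_mod_cast one_le_RR x
  rw [XX]
  positivity

theorem AA_XX (K : ℕ) (hx : Std x) (hc : CF x) {a : ℕ → ℚ} (ha : Sol x a) (n : ℕ) :
    3 ^ (K + 1) * |AA x a n| ≤ XX K x n := by
  have h := AA_le hx hc ha n
  rw [XX, BB]
  push_cast
  rw [mul_assoc]
  exact mul_le_mul_of_nonneg_left (by exact_mod_cast h) (by positivity)

theorem near_redC (K : ℕ) (hx : Std x) (hc : CF x) {a : ℕ → ℚ} (ha : Sol x a) :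
    ∀ i ≤ K, ∀ m, 0 ≤ (LC^[i] (bs (XX K x) (YY K x a))) m := by
  intro i hi
  rw [iter_LC_bs, bs_nonneg_iff]
  intro n
  refine tt_near (K + 1) (XX_pos K x n) ?_ i (by omega)
  have h1 := AA_XX K hx hc ha n
  have h2 : 2 * XX K x n - YY K x a n ≤ |AA x a n| := by
    rw [YY]
    have := neg_abs_le (AA x a n)
    linarith
  exact (mul_le_mul_of_nonneg_left h2 (by positivity)).trans h1

theorem infLC_redC (K : ℕ) (hx : Std x) (hc : CF x) {a : ℕ → ℚ} (ha : Sol x a) :
    InfLC (bs (XX K x) (YY K x a)) ↔ ∀ n, 0 ≤ a n := by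
  have hcd : (0 : ℚ) < WW x * ((cf x x.2.length : ℚ) * (cf x x.2.length : ℚ)) := by
    have h1 : (0 : ℚ) < WW x := by exact_mod_cast WW_pos x
    have h2 : (cf x x.2.length : ℚ) ≠ 0 := by exact_mod_cast cf_ne hx hc
    have h3 : 0 < (cf x x.2.length : ℚ) * (cf x x.2.length : ℚ) := mul_self_pos.2 h2
    positivity
  constructor
  · intro h n
    by_contra hn
    push Not at hn
    have h1 : AA x a n < 0 := mul_neg_of_neg_of_pos hn hcd
    have h2 := AA_XX K hx hc ha n
    have h3 := XX_pos K x n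
    have h4 : XX K x n < YY K x a n := by
      rw [abs_of_neg h1] at h2
      rw [YY]
      have h5 : (3 : ℚ) ≤ 3 ^ (K + 1) := by
        rw [pow_succ]
        have : (1 : ℚ) ≤ 3 ^ K := one_le_pow₀ (by norm_num)
        linarith
      have h6 : 3 * -AA x a n ≤ 3 ^ (K + 1) * -AA x a n :=
        mul_le_mul_of_nonneg_right h5 (by linarith)
      linarith
    have h5 : YY K x a n < 2 * XX K x n := by
      rw [YY]
      linarith
    obtain ⟨i, hi⟩ := tt_lt h3 h4 h5
    have h6 := h i
    rw [iter_LC_bs, bs_nonneg_iff] at h6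
    exact absurd (h6 n).2 (not_le.2 hi)
  · intro h i
    rw [iter_LC_bs, bs_nonneg_iff]
    intro n
    have h1 : 0 ≤ AA x a n := mul_nonneg (h n) hcd.le
    have h2 := tt_ge (XX_pos K x n).le (y := YY K x a n) (by rw [YY]; linarith) i
    exact ⟨h2.1, by linarith [h2.1, h2.2]⟩

end Pool.Agent.Helper4.IL
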