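import Mathlib

/-!
# Infinite log-concavity of P-recursive sequences: definitions
-/

set_option autoImplicit false

namespace Pool.Agent.Helper4.IL

/-- A finite description `(P, I)`: `P` is the list of the coefficient lists (constant term first) of the
polynomials `p_0, ..., p_d` of the recurrence, `I` the list of the initial values, `(z, w)` standing for
the rational number `z / (w + 1)`. -/
abbrev Inp : Type := List (List ℤ) × List (ℤ × ℕ)

/-- The value at `t` of the polynomial with coefficient list `p`. -/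
def ev (p : List ℤ) (t : ℚ) : ℚ := p.foldr (fun (c : ℤ) (acc : ℚ) => (c : ℚ) + t * acc) 0

/-- `a` satisfies the recurrence `∑_j p_j(n) a(n+j) = 0` for all `n` and has the given initial values. -/
def Sol (x : Inp) (a : ℕ → ℚ) : Prop :=
  (∀ n : ℕ, ∑ j ∈ Finset.range x.1.length, ev (x.1.getD j []) n * a (n + j) = 0) ∧
    ∀ k < x.2.length, a k = ((x.2.getD k (0, 0)).1 : ℚ) / (((x.2.getD k (0, 0)).2 : ℚ) + 1)

/-- Admissible descriptions: with `d` initial values there are `d + 1` polynomials `p_0, ..., p_d`, and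
`p_d(n) ≠ 0` for all `n`. -/
def Std (x : Inp) : Prop :=
  x.1.length = x.2.length + 1 ∧ ∀ n : ℕ, ev (x.1.getD x.2.length []) n ≠ 0

/-- The log-concavity operator. -/
def LC (b : ℕ → ℚ) (m : ℕ) : ℚ := b m ^ 2 - (if m = 0 then 0 else b (m - 1)) * b (m + 1)

/-- Infinite log-concavity. -/
def InfLC (a : ℕ → ℚ) : Prop := ∀ i n : ℕ, 0 ≤ (LC^[i] a) n

end Pool.Agent.Helper4.IL
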