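import Mathlib

/-!
# Primitive recursive integer operations (from Helper24/DS/IntPrim)
-/

set_option autoImplicit false

namespace Pool.Agent.Helper4.IL

open Filter Set

lemma IntPrim_encode (z : ℤ) : Encodable.encode z = Equiv.intEquivNat z := rfl

lemma IntPrim_encode_ofNat (n : ℕ) : Encodable.encode (n : ℤ) = 2 * n := by
  rw [IntPrim_encode]
  change Nat.bit false n = 2 * n
  simp [Nat.bit]

lemma IntPrim_encode_negSucc (n : ℕ) : Encodable.encode (Int.negSucc n) = 2 * n + 1 := by
  rw [IntPrim_encode]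
  simp [Equiv.intEquivNat, Equiv.intEquivNatSumNat, Equiv.natSumNatEquivNat]

theorem primrec_int_ofNat : Primrec (fun n : ℕ => (n : ℤ)) := by
  refine Primrec.encode_iff.1 ?_
  refine (Primrec.nat_mul.comp (Primrec.const 2) Primrec.id).of_eq fun n => ?_
  rw [IntPrim_encode_ofNat]
  rfl

theorem primrec_int_toNat : Primrec Int.toNat := by
  have h : Primrec (fun m : ℕ => if m % 2 = 0 then m / 2 else 0) :=
    Primrec.ite (Primrec.eq.comp (Primrec.nat_mod.comp Primrec.id (Primrec.const 2))
      (Primrec.const 0)) (Primrec.nat_div.comp Primrec.id (Primrec.const 2)) (Primrec.const 0)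
  refine (h.comp Primrec.encode).of_eq fun z => ?_
  rcases z with n | n
  · change (if Encodable.encode ((n : ℕ) : ℤ) % 2 = 0 then Encodable.encode ((n : ℕ) : ℤ) / 2
      else 0) = _
    rw [IntPrim_encode_ofNat, if_pos (by omega)]
    simp
  · rw [IntPrim_encode_negSucc, if_neg (by omega)]
    rfl

theorem primrec_int_neg_toNat : Primrec (fun z : ℤ => (-z).toNat) := by
  have h : Primrec (fun m : ℕ => if m % 2 = 1 then m / 2 + 1 else 0) :=
    Primrec.ite (Primrec.eq.comp (Primrec.nat_mod.comp Primrec.id (Primrec.const 2))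
      (Primrec.const 1)) (Primrec.succ.comp (Primrec.nat_div.comp Primrec.id (Primrec.const 2)))
      (Primrec.const 0)
  refine (h.comp Primrec.encode).of_eq fun z => ?_
  rcases z with n | n
  · change (if Encodable.encode ((n : ℕ) : ℤ) % 2 = 1 then Encodable.encode ((n : ℕ) : ℤ) / 2 + 1
      else 0) = _
    rw [IntPrim_encode_ofNat, if_neg (by omega)]
    simp
  · rw [IntPrim_encode_negSucc, if_pos (by omega)]
    have : (-Int.negSucc n).toNat = n + 1 := rfl
    rw [this]
    omega

theorem primrec_nat_sub_int : Primrec₂ (fun a b : ℕ => (a : ℤ) - (b : ℤ)) := by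
  refine Primrec.encode_iff.1 ?_
  have h : Primrec (fun p : ℕ × ℕ => if p.2 ≤ p.1 then 2 * (p.1 - p.2) else
      2 * (p.2 - p.1 - 1) + 1) := by
    refine Primrec.ite (Primrec.nat_le.comp Primrec.snd Primrec.fst) ?_ ?_
    · exact Primrec.nat_mul.comp (Primrec.const 2) (Primrec.nat_sub.comp Primrec.fst Primrec.snd)
    · exact Primrec.succ.comp (Primrec.nat_mul.comp (Primrec.const 2)
        (Primrec.nat_sub.comp (Primrec.nat_sub.comp Primrec.snd Primrec.fst) (Primrec.const 1)))
  refine h.of_eq fun p => ?_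
  obtain ⟨a, b⟩ := p
  simp only []
  split_ifs with hab
  · have : ((a : ℤ) - (b : ℤ)) = ((a - b : ℕ) : ℤ) := by omega
    rw [this, IntPrim_encode_ofNat]
  · have : ((a : ℤ) - (b : ℤ)) = Int.negSucc (b - a - 1) := by
      rw [Int.negSucc_eq]
      omega
    rw [this, IntPrim_encode_negSucc]

theorem primrec_int_add : Primrec₂ (fun a b : ℤ => a + b) := by
  have h : Primrec (fun p : ℤ × ℤ => ((p.1.toNat + p.2.toNat : ℕ) : ℤ) -
      (((-p.1).toNat + (-p.2).toNat : ℕ) : ℤ)) :=
    primrec_nat_sub_int.comp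
      (Primrec.nat_add.comp (primrec_int_toNat.comp Primrec.fst) (primrec_int_toNat.comp Primrec.snd))
      (Primrec.nat_add.comp (primrec_int_neg_toNat.comp Primrec.fst)
        (primrec_int_neg_toNat.comp Primrec.snd))
  refine h.of_eq fun p => ?_
  obtain ⟨a, b⟩ := p
  simp only []
  omega

theorem primrec_int_neg : Primrec (fun a : ℤ => -a) := by
  refine (primrec_nat_sub_int.comp primrec_int_neg_toNat primrec_int_toNat).of_eq fun z => ?_
  omega

theorem primrec_int_sub : Primrec₂ (fun a b : ℤ => a - b) :=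
  (primrec_int_add.comp Primrec.fst (primrec_int_neg.comp Primrec.snd)).of_eq fun p => by
    obtain ⟨a, b⟩ := p
    simp only []
    omega

theorem primrec_int_mul : Primrec₂ (fun a b : ℤ => a * b) := by
  have h : Primrec (fun p : ℤ × ℤ =>
      ((p.1.toNat * p.2.toNat + (-p.1).toNat * (-p.2).toNat : ℕ) : ℤ) -
      ((p.1.toNat * (-p.2).toNat + (-p.1).toNat * p.2.toNat : ℕ) : ℤ)) := by
    have a1 := primrec_int_toNat.comp (Primrec.fst (α := ℤ) (β := ℤ))
    have a2 := primrec_int_toNat.comp (Primrec.snd (α := ℤ) (β := ℤ))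
    have b1 := primrec_int_neg_toNat.comp (Primrec.fst (α := ℤ) (β := ℤ))
    have b2 := primrec_int_neg_toNat.comp (Primrec.snd (α := ℤ) (β := ℤ))
    exact primrec_nat_sub_int.comp
      (Primrec.nat_add.comp (Primrec.nat_mul.comp a1 a2) (Primrec.nat_mul.comp b1 b2))
      (Primrec.nat_add.comp (Primrec.nat_mul.comp a1 b2) (Primrec.nat_mul.comp b1 a2))
  refine h.of_eq fun p => ?_
  obtain ⟨a, b⟩ := p
  simp only []
  have ha : (a : ℤ) = (a.toNat : ℤ) - ((-a).toNat : ℤ) := by omega
  have hb : (b : ℤ) = (b.toNat : ℤ) - ((-b).toNat : ℤ) := by omega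
  conv_rhs => rw [ha, hb]
  push_cast
  ring

theorem primrec_int_natAbs : Primrec Int.natAbs := by
  refine (Primrec.nat_add.comp primrec_int_toNat primrec_int_neg_toNat).of_eq fun z => ?_
  omega

end Pool.Agent.Helper4.IL
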