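import Pool.Agent.Helper4.IL.Sem
import Pool.Agent.Helper4.IL.IntPrim

/-!
# The reduction is primitive recursive
-/

set_option autoImplicit false

namespace Pool.Agent.Helper4.IL

theorem primrec_nat_pow : Primrec₂ ((· ^ ·) : ℕ → ℕ → ℕ) :=
  Primrec₂.unpaired'.1 Nat.Primrec.pow

theorem primrec_CC : Primrec CC := by
  have hh : Primrec₂ (fun (_ : List ℤ) (q : ℤ × ℕ) => max 1 q.1.natAbs * q.2) :=
    Primrec.nat_mul.comp
      (Primrec.nat_max.comp (Primrec.const 1)
        (primrec_int_natAbs.comp (Primrec.fst.comp Primrec.snd)))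
      (Primrec.snd.comp Primrec.snd)
  exact Primrec.list_foldr (f := fun p : List ℤ => p) (g := fun _ => 1) Primrec.id
    (Primrec.const 1) hh

theorem primrec_DD : Primrec DD := by
  have hh : Primrec₂ (fun (_ : Inp) (q : List ℤ × ℕ) => q.1.length + q.2) :=
    Primrec.nat_add.comp (Primrec.list_length.comp (Primrec.fst.comp Primrec.snd))
      (Primrec.snd.comp Primrec.snd)
  exact Primrec.list_foldr (f := fun x : Inp => x.1) (g := fun _ => 0) Primrec.fst
    (Primrec.const 0) hh

theorem primrec_st : Primrec st := by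
  have h1 : Primrec (fun x : Inp => x.1.length - 1) :=
    Primrec.nat_sub.comp (Primrec.list_length.comp Primrec.fst) (Primrec.const 1)
  have h2 : Primrec (fun x : Inp => x.1.getD (x.1.length - 1) []) :=
    (Primrec.list_getD []).comp Primrec.fst h1
  exact Primrec.succ.comp (Primrec.nat_mul.comp (Primrec.const 3) (primrec_CC.comp h2))

theorem primrec_sc : Primrec (fun q : (ℕ × ℕ) × List ℤ => sc q.1.1 q.1.2 q.2) := by
  have hg : Primrec₂ (fun (q : (ℕ × ℕ) × List ℤ) (i : ℕ) =>
      q.2.getD i 0 * ((q.1.1 ^ (q.1.2 - i) : ℕ) : ℤ)) := by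
    refine primrec_int_mul.comp ?_ ?_
    · exact (Primrec.list_getD 0).comp (Primrec.snd.comp Primrec.fst) Primrec.snd
    · refine primrec_int_ofNat.comp (primrec_nat_pow.comp ?_ ?_)
      · exact Primrec.fst.comp (Primrec.fst.comp Primrec.fst)
      · exact Primrec.nat_sub.comp (Primrec.snd.comp (Primrec.fst.comp Primrec.fst)) Primrec.snd
  exact Primrec.list_map (Primrec.list_range.comp (Primrec.list_length.comp Primrec.snd)) hg

theorem primrec_red : Primrec red := by
  have hst1 : Primrec (fun q : Inp × ℕ => st q.1) := primrec_st.comp Primrec.fst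
  have hmod : Primrec (fun q : Inp × ℕ => q.2 % st q.1) := Primrec.nat_mod.comp Primrec.snd hst1
  have hdiv : Primrec (fun q : Inp × ℕ => q.2 / st q.1) := Primrec.nat_div.comp Primrec.snd hst1
  have hc : PrimrecPred (fun q : Inp × ℕ => q.2 % st q.1 = 0) :=
    Primrec.eq.comp hmod (Primrec.const 0)
  have h1 : Primrec₂ (fun (x : Inp) (i : ℕ) =>
      if i % st x = 0 then sc (st x) (DD x) (x.1.getD (i / st x) []) else []) := by
    refine Primrec.ite hc ?_ (Primrec.const [])
    refine primrec_sc.comp (Primrec.pair (Primrec.pair hst1 (primrec_DD.comp Primrec.fst)) ?_)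
    exact (Primrec.list_getD []).comp (Primrec.fst.comp Primrec.fst) hdiv
  have h2 : Primrec₂ (fun (x : Inp) (i : ℕ) =>
      if i % st x = 0 then x.2.getD (i / st x) (0, 0) else ((0, 0) : ℤ × ℕ)) := by
    refine Primrec.ite hc ?_ (Primrec.const _)
    exact (Primrec.list_getD ((0, 0) : ℤ × ℕ)).comp (Primrec.snd.comp Primrec.fst) hdiv
  have h3 : Primrec (fun x : Inp => List.range (st x * (x.1.length - 1) + 1)) :=
    Primrec.list_range.comp (Primrec.succ.comp (Primrec.nat_mul.comp primrec_st
      (Primrec.nat_sub.comp (Primrec.list_length.comp Primrec.fst) (Primrec.const 1))))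
  have h4 : Primrec (fun x : Inp => List.range (st x * x.2.length)) :=
    Primrec.list_range.comp (Primrec.nat_mul.comp primrec_st
      (Primrec.list_length.comp Primrec.snd))
  exact Primrec.pair (Primrec.list_map h3 h1) (Primrec.list_map h4 h2)

end Pool.Agent.Helper4.IL
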