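import Pool.Agent.Helper4.IL.CF
import Pool.Agent.Helper4.IL.Prim

/-!
# The reduction for constant coefficients is primitive recursive
-/

set_option autoImplicit false

namespace Pool.Agent.Helper4.IL

theorem primrec_cf : Primrec (fun q : Inp × ℕ => cf q.1 q.2) :=
  (Primrec.list_getD 0).comp ((Primrec.list_getD []).comp (Primrec.fst.comp Primrec.fst) Primrec.snd)
    (Primrec.const 0)

theorem primrec_WW : Primrec WW := by
  have hh : Primrec₂ (fun (_ : Inp) (q : (ℤ × ℕ) × ℕ) => (q.1.2 + 1) * q.2) :=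
    Primrec.nat_mul.comp (Primrec.succ.comp (Primrec.snd.comp (Primrec.fst.comp Primrec.snd)))
      (Primrec.snd.comp Primrec.snd)
  exact Primrec.list_foldr (f := fun x : Inp => x.2) (g := fun _ => 1) Primrec.snd
    (Primrec.const 1) hh

theorem primrec_zi : Primrec (fun q : Inp × ℕ => zi q.1 q.2) := by
  have h1 : Primrec (fun q : Inp × ℕ => q.1.2.getD q.2 ((0, 0) : ℤ × ℕ)) :=
    (Primrec.list_getD ((0, 0) : ℤ × ℕ)).comp (Primrec.snd.comp Primrec.fst) Primrec.snd
  refine primrec_int_mul.comp (Primrec.fst.comp h1) (primrec_int_ofNat.comp ?_)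
  exact Primrec.nat_div.comp (primrec_WW.comp Primrec.fst) (Primrec.succ.comp (Primrec.snd.comp h1))

theorem primrec_su : Primrec su := by
  have hh : Primrec₂ (fun (x : Inp) (q : ℕ × ℤ) => cf x q.1 * zi x q.1 + q.2) := by
    have h1 : Primrec (fun r : Inp × (ℕ × ℤ) => (r.1, r.2.1)) :=
      Primrec.pair Primrec.fst (Primrec.fst.comp Primrec.snd)
    exact primrec_int_add.comp (primrec_int_mul.comp (primrec_cf.comp h1) (primrec_zi.comp h1))
      (Primrec.snd.comp Primrec.snd)
  exact Primrec.list_foldr (f := fun x : Inp => List.range x.2.length) (g := fun _ => (0 : ℤ))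
    (Primrec.list_range.comp (Primrec.list_length.comp Primrec.snd)) (Primrec.const 0) hh

theorem primrec_last : Primrec (fun x : Inp => cf x x.2.length) :=
  primrec_cf.comp (Primrec.pair Primrec.id (Primrec.list_length.comp Primrec.snd))

theorem primrec_vi : Primrec (fun q : Inp × ℕ => vi q.1 q.2) := by
  have h1 : Primrec (fun q : Inp × ℕ => cf q.1 q.1.2.length) := primrec_last.comp Primrec.fst
  refine Primrec.ite ?_ ?_ ?_
  · exact Primrec.nat_lt.comp Primrec.snd
      (Primrec.list_length.comp (Primrec.snd.comp Primrec.fst))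
  · exact primrec_int_mul.comp primrec_zi (primrec_int_mul.comp h1 h1)
  · exact primrec_int_neg.comp (primrec_int_mul.comp h1 (primrec_su.comp Primrec.fst))

theorem primrec_RR : Primrec RR := by
  have hh : Primrec₂ (fun (_ : Inp) (q : List ℤ × ℕ) => (q.1.getD 0 0).natAbs + q.2) :=
    Primrec.nat_add.comp
      (primrec_int_natAbs.comp ((Primrec.list_getD 0).comp (Primrec.fst.comp Primrec.snd)
        (Primrec.const 0)))
      (Primrec.snd.comp Primrec.snd)
  exact Primrec.list_foldr (f := fun x : Inp => x.1) (g := fun _ => 1) Primrec.fst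
    (Primrec.const 1) hh

theorem primrec_BB (K : ℕ) : Primrec (BB K) := by
  have hh : Primrec₂ (fun (x : Inp) (q : ℕ × ℕ) => (vi x q.1).natAbs + q.2) := by
    have h1 : Primrec (fun r : Inp × (ℕ × ℕ) => (r.1, r.2.1)) :=
      Primrec.pair Primrec.fst (Primrec.fst.comp Primrec.snd)
    exact Primrec.nat_add.comp (primrec_int_natAbs.comp (primrec_vi.comp h1))
      (Primrec.snd.comp Primrec.snd)
  have h2 : Primrec (fun x : Inp =>
      (List.range (x.2.length + 1)).foldr (fun k acc => (vi x k).natAbs + acc) 1) :=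
    Primrec.list_foldr (f := fun x : Inp => List.range (x.2.length + 1)) (g := fun _ => 1)
      (Primrec.list_range.comp (Primrec.succ.comp (Primrec.list_length.comp Primrec.snd)))
      (Primrec.const 1) hh
  exact Primrec.nat_mul.comp (Primrec.const (3 ^ (K + 1))) h2

theorem primrec_MM (K : ℕ) : Primrec (fun q : Inp × ℕ => MM K q.1 q.2) :=
  primrec_int_ofNat.comp (Primrec.nat_mul.comp ((primrec_BB K).comp Primrec.fst)
    (primrec_nat_pow.comp (primrec_RR.comp Primrec.fst) Primrec.snd))

theorem primrec_qq : Primrec (fun q : Inp × ℕ => qq q.1 q.2) := by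
  refine primrec_int_sub.comp (Primrec.ite ?_ (Primrec.const 0) ?_) ?_
  · exact Primrec.eq.comp Primrec.snd (Primrec.const 0)
  · exact primrec_cf.comp (Primrec.pair Primrec.fst (Primrec.pred.comp Primrec.snd))
  · exact primrec_int_mul.comp (primrec_int_ofNat.comp (primrec_RR.comp Primrec.fst)) primrec_cf

theorem primrec_bl (K : ℕ) : Primrec (fun q : Inp × (ℕ × ℕ) => bl K q.1 q.2.1 q.2.2) := by
  have hr : Primrec (fun q : Inp × (ℕ × ℕ) => q.2.2) := Primrec.snd.comp Primrec.snd
  have h1 : Primrec (fun q : Inp × (ℕ × ℕ) => (q.1, q.2.1)) :=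
    Primrec.pair Primrec.fst (Primrec.fst.comp Primrec.snd)
  have he : ∀ c : ℕ, PrimrecPred (fun q : Inp × (ℕ × ℕ) => q.2.2 = c) := fun c =>
    Primrec.eq.comp hr (Primrec.const c)
  refine Primrec.ite ((he 0).or (he 3)) ((primrec_MM K).comp h1) ?_
  refine Primrec.ite ((he 1).or (he 2)) ?_ (Primrec.const 0)
  exact primrec_int_add.comp (primrec_int_mul.comp (Primrec.const 2) ((primrec_MM K).comp h1))
    (primrec_vi.comp h1)

theorem primrec_redC (K : ℕ) : Primrec (redC K) := by
  have hmod : Primrec (fun q : Inp × ℕ => q.2 % 6) :=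
    Primrec.nat_mod.comp Primrec.snd (Primrec.const 6)
  have hdiv : Primrec (fun q : Inp × ℕ => q.2 / 6) :=
    Primrec.nat_div.comp Primrec.snd (Primrec.const 6)
  have h1 : Primrec₂ (fun (x : Inp) (i : ℕ) => if i % 6 = 0 then [qq x (i / 6)] else []) := by
    refine Primrec.ite (Primrec.eq.comp hmod (Primrec.const 0)) ?_ (Primrec.const [])
    exact Primrec.list_cons.comp (primrec_qq.comp (Primrec.pair Primrec.fst hdiv)) (Primrec.const [])
  have h2 : Primrec₂ (fun (x : Inp) (i : ℕ) => ((bl K x (i / 6) (i % 6), 0) : ℤ × ℕ)) :=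
    Primrec.pair ((primrec_bl K).comp (Primrec.pair Primrec.fst (Primrec.pair hdiv hmod)))
      (Primrec.const 0)
  have hl : Primrec (fun x : Inp => 6 * (x.2.length + 1)) :=
    Primrec.nat_mul.comp (Primrec.const 6) (Primrec.succ.comp (Primrec.list_length.comp Primrec.snd))
  exact Primrec.pair (Primrec.list_map (Primrec.list_range.comp (Primrec.succ.comp hl)) h1)
    (Primrec.list_map (Primrec.list_range.comp hl) h2)

end Pool.Agent.Helper4.IL
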