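import Pool.Agent.Helper4.IL.Defs

/-!
# The reduction
-/

set_option autoImplicit false

namespace Pool.Agent.Helper4.IL

open Polynomial

/-- the product of the nonzero coefficients -/
def CC (p : List ℤ) : ℕ := p.foldr (fun c acc => max 1 c.natAbs * acc) 1

/-- the stride -/
def st (x : Inp) : ℕ := 3 * CC (x.1.getD (x.1.length - 1) []) + 1

/-- a bound for the lengths -/
def DD (x : Inp) : ℕ := x.1.foldr (fun p acc => p.length + acc) 0

/-- the coefficients of `s ^ D * p (N / s)` -/
def sc (s D : ℕ) (p : List ℤ) : List ℤ :=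
  (List.range p.length).map fun i => p.getD i 0 * ((s ^ (D - i) : ℕ) : ℤ)

/-- the reduction -/
def red (x : Inp) : Inp :=
  ((List.range (st x * (x.1.length - 1) + 1)).map fun i =>
      if i % st x = 0 then sc (st x) (DD x) (x.1.getD (i / st x) []) else [],
    (List.range (st x * x.2.length)).map fun i =>
      if i % st x = 0 then x.2.getD (i / st x) (0, 0) else (0, 0))

/-- the spread sequence -/
def spr (s : ℕ) (a : ℕ → ℚ) (m : ℕ) : ℚ := if m % s = 0 then a (m / s) else 0

theorem ev_eq (p : List ℤ) (t : ℚ) :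
    ev p t = ∑ i ∈ Finset.range p.length, (p.getD i 0 : ℚ) * t ^ i := by
  induction p with
  | nil => simp [ev]
  | cons c p ih =>
    rw [List.length_cons, Finset.sum_range_succ']
    have h : ev (c :: p) t = (c : ℚ) + t * ev p t := rfl
    rw [h, ih, Finset.mul_sum, add_comm]
    simp only [List.getD_cons_succ, List.getD_cons_zero, pow_zero, mul_one, add_left_inj]
    apply Finset.sum_congr rfl
    intro i _
    ring

theorem getD_map_range {α : Type} (n : ℕ) (f : ℕ → α) (d : α) {i : ℕ} (hi : i < n) :
    ((List.range n).map f).getD i d = f i := by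
  rw [List.getD_eq_getElem?_getD, List.getElem?_map, List.getElem?_range hi]
  rfl

theorem ev_sc {s D : ℕ} (hs : 0 < s) {p : List ℤ} (hp : p.length ≤ D) (N : ℚ) :
    ev (sc s D p) N = (s : ℚ) ^ D * ev p (N / s) := by
  rw [ev_eq, ev_eq, Finset.mul_sum]
  have hl : (sc s D p).length = p.length := by simp [sc]
  rw [hl]
  apply Finset.sum_congr rfl
  intro i hi
  have hi' := Finset.mem_range.1 hi
  have hs' : (s : ℚ) ≠ 0 := by exact_mod_cast hs.ne'
  have h : (sc s D p).getD i 0 = p.getD i 0 * ((s ^ (D - i) : ℕ) : ℤ) := getD_map_range _ _ _ hi'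
  rw [h]
  push_cast
  have h2 : (s : ℚ) ^ D = (s : ℚ) ^ (D - i) * (s : ℚ) ^ i := by
    rw [← pow_add]
    congr 1
    omega
  rw [h2, div_pow]
  field_simp

theorem CC_pos (p : List ℤ) : 0 < CC p := by
  induction p with
  | nil => exact Nat.one_pos
  | cons c p ih =>
    have h : CC (c :: p) = max 1 c.natAbs * CC p := rfl
    rw [h]
    positivity

theorem dvd_CC {p : List ℤ} {i : ℕ} (h : p.getD i 0 ≠ 0) : (p.getD i 0).natAbs ∣ CC p := by
  induction p generalizing i with
  | nil => simp at h
  | cons c p ih =>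
    have hc : CC (c :: p) = max 1 c.natAbs * CC p := rfl
    rw [hc]
    cases i with
    | zero =>
      rw [List.getD_cons_zero] at h ⊢
      have : max 1 c.natAbs = c.natAbs := max_eq_right (by omega)
      rw [this]
      exact dvd_mul_right _ _
    | succ i =>
      rw [List.getD_cons_succ] at h ⊢
      exact (ih h).mul_left _

theorem ev_ne_zero {p : List ℤ} (hp : ∀ n : ℕ, ev p n ≠ 0) {s : ℕ} (hs : s = 3 * CC p + 1) (N : ℕ) :
    ev p ((N : ℚ) / s) ≠ 0 := by
  intro h0
  have hs0 : 0 < s := by omega
  have hs' : (s : ℚ) ≠ 0 := by exact_mod_cast hs0.ne'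
  let P : ℤ[X] := ∑ i ∈ Finset.range p.length, C (p.getD i 0) * X ^ i
  have hcoeff : ∀ n, P.coeff n = if n < p.length then p.getD n 0 else 0 := by
    intro n
    simp only [P, finsetSum_coeff, coeff_C_mul, coeff_X_pow, mul_ite, mul_one, mul_zero]
    rw [Finset.sum_ite_eq]
    simp
  have haeval : ∀ t : ℚ, aeval t P = ev p t := by
    intro t
    rw [ev_eq]
    simp only [P, map_sum, map_mul, aeval_C, map_pow, aeval_X]
    rfl
  have hP0 : P ≠ 0 := by
    intro h
    apply hp 0
    rw [← haeval, h, map_zero]
  have h1 : aeval ((N : ℚ) / s) P = 0 := by rw [haeval, h0]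
  have h2 := den_dvd_of_is_root h1
  have h3 : (((N : ℚ) / s).den : ℤ) ∣ P.leadingCoeff := by
    rw [← Int.natAbs_dvd_natAbs] at h2
    rw [← Rat.isFractionRingDen]
    rw [← Int.natAbs_dvd_natAbs]
    simpa using h2
  have h4 : ((N : ℚ) / s).den ∣ CC p := by
    have h5 : P.leadingCoeff ≠ 0 := leadingCoeff_ne_zero.2 hP0
    have h6 : P.leadingCoeff = p.getD P.natDegree 0 := by
      have := hcoeff P.natDegree
      rw [coeff_natDegree] at this
      rw [this]
      split_ifs with h7
      · rfl
      · rw [if_neg h7] at this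
        exact absurd this h5
    rw [h6] at h3 h5
    have := Int.natAbs_dvd_natAbs.2 h3
    rw [Int.natAbs_natCast] at this
    exact this.trans (dvd_CC h5)
  have h5 : ((N : ℚ) / s).den ∣ s := by
    have := Rat.den_dvd N s
    rw [Rat.divInt_eq_div] at this
    exact_mod_cast this
  have h6 : ((N : ℚ) / s).den = 1 := by
    have h7 : ((N : ℚ) / s).den ∣ 3 * CC p + 1 := hs ▸ h5
    have h8 : ((N : ℚ) / s).den ∣ 3 * CC p := h4.mul_left 3
    exact Nat.dvd_one.1 ((Nat.dvd_add_right h8).1 h7)
  have h7 : (N : ℚ) / s = (((N : ℚ) / s).num : ℚ) := (Rat.den_eq_one_iff _).1 h6 |>.symm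
  have h8 : 0 ≤ ((N : ℚ) / s).num := Rat.num_nonneg.2 (by positivity)
  obtain ⟨n, hn⟩ := Int.eq_ofNat_of_zero_le h8
  rw [hn] at h7
  rw [h7] at h0
  exact hp n (by exact_mod_cast h0)

theorem le_DD {x : List (List ℤ)} {p : List ℤ} (h : p ∈ x) :
    p.length ≤ x.foldr (fun p acc => p.length + acc) 0 := by
  induction x with
  | nil => simp at h
  | cons q x ih =>
    rw [List.foldr_cons]
    rcases List.mem_cons.1 h with rfl | h
    · omega
    · have := ih h
      omega

theorem length_getD_le (x : Inp) (k : ℕ) : (x.1.getD k []).length ≤ DD x := by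
  by_cases h : k < x.1.length
  · rw [List.getD_eq_getElem _ _ h]
    exact le_DD (List.getElem_mem h)
  · rw [List.getD_eq_default _ _ (not_lt.1 h)]
    exact Nat.zero_le _

theorem red_fst_length (x : Inp) : (red x).1.length = st x * (x.1.length - 1) + 1 := by
  simp [red]

theorem red_snd_length (x : Inp) : (red x).2.length = st x * x.2.length := by
  simp [red]

theorem std_red {x : Inp} (hx : Std x) : Std (red x) := by
  have hs : 0 < st x := Nat.succ_pos _
  have hd : x.1.length - 1 = x.2.length := by rw [hx.1]; rfl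
  refine ⟨?_, ?_⟩
  · rw [red_fst_length, red_snd_length, hd]
  · intro n
    rw [red_snd_length]
    have h : (red x).1.getD (st x * x.2.length) [] = sc (st x) (DD x) (x.1.getD x.2.length []) := by
      have h1 := getD_map_range (st x * (x.1.length - 1) + 1) (fun i =>
        if i % st x = 0 then sc (st x) (DD x) (x.1.getD (i / st x) []) else []) []
        (i := st x * x.2.length) (by rw [hd]; exact Nat.lt_succ_self _)
      rw [if_pos (Nat.mul_mod_right _ _), Nat.mul_div_cancel_left _ hs] at h1
      exact h1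
    rw [h, ev_sc hs (length_getD_le x _)]
    refine mul_ne_zero (pow_ne_zero _ (by exact_mod_cast hs.ne')) ?_
    refine ev_ne_zero hx.2 ?_ n
    rw [st, hd]

theorem sol_red {x : Inp} (hx : Std x) {a : ℕ → ℚ} (ha : Sol x a) : Sol (red x) (spr (st x) a) := by
  have hs : 0 < st x := Nat.succ_pos _
  have hd : x.1.length - 1 = x.2.length := by rw [hx.1]; rfl
  set s := st x with hsdef
  refine ⟨?_, ?_⟩
  · intro N
    rw [red_fst_length, ← hsdef, hd]
    have hg : ∀ j < s * x.2.length + 1, (red x).1.getD j [] =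
        if j % s = 0 then sc s (DD x) (x.1.getD (j / s) []) else [] := by
      intro j hj
      exact getD_map_range (st x * (x.1.length - 1) + 1) (fun i =>
        if i % st x = 0 then sc (st x) (DD x) (x.1.getD (i / st x) []) else []) []
        (i := j) (by rw [hd]; exact hj)
    have h1 : ∑ j ∈ Finset.range (s * x.2.length + 1), ev ((red x).1.getD j []) N * spr s a (N + j) =
        ∑ k ∈ Finset.range (x.2.length + 1),
          ev (sc s (DD x) (x.1.getD k [])) N * spr s a (N + s * k) := by
      symm
      refine Finset.sum_of_injOn (fun k => s * k) ?_ ?_ ?_ ?_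
      · intro k _ k' _ h
        exact Nat.eq_of_mul_eq_mul_left hs h
      · intro k hk
        simp only [Finset.coe_range, Set.mem_Iio] at hk ⊢
        exact Nat.lt_succ_of_le (Nat.mul_le_mul_left s (Nat.lt_succ_iff.1 hk))
      · intro j hj hj'
        have hj1 := Finset.mem_range.1 hj
        rw [hg j hj1]
        by_cases h : j % s = 0
        · exfalso
          apply hj'
          obtain ⟨k, rfl⟩ := Nat.dvd_of_mod_eq_zero h
          refine ⟨k, ?_, rfl⟩
          simp only [Finset.coe_range, Set.mem_Iio]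
          exact Nat.lt_succ_of_le (Nat.le_of_mul_le_mul_left (Nat.lt_succ_iff.1 hj1) hs)
        · rw [if_neg h]
          simp [ev]
      · intro k hk
        have hk1 := Finset.mem_range.1 hk
        rw [hg (s * k) (Nat.lt_succ_of_le (Nat.mul_le_mul_left s (Nat.lt_succ_iff.1 hk1))),
          if_pos (Nat.mul_mod_right _ _), Nat.mul_div_cancel_left _ hs]
    rw [h1]
    by_cases hN : N % s = 0
    · obtain ⟨n, rfl⟩ := Nat.dvd_of_mod_eq_zero hN
      have h2 := ha.1 n
      rw [hx.1] at h2
      calc ∑ k ∈ Finset.range (x.2.length + 1),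
            ev (sc s (DD x) (x.1.getD k [])) ((s * n : ℕ) : ℚ) * spr s a (s * n + s * k)
          = ∑ k ∈ Finset.range (x.2.length + 1), (s : ℚ) ^ DD x *
              (ev (x.1.getD k []) n * a (n + k)) := by
            apply Finset.sum_congr rfl
            intro k _
            rw [ev_sc hs (length_getD_le x k), ← Nat.mul_add, spr, if_pos (Nat.mul_mod_right _ _),
              Nat.mul_div_cancel_left _ hs]
            have h3 : ((s * n : ℕ) : ℚ) / (s : ℚ) = n := by
              push_cast
              rw [mul_div_cancel_left₀]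
              exact_mod_cast hs.ne'
            rw [h3, mul_assoc]
        _ = 0 := by rw [← Finset.mul_sum, h2, mul_zero]
    · apply Finset.sum_eq_zero
      intro k _
      rw [spr, Nat.add_mul_mod_self_left, if_neg hN, mul_zero]
  · intro k hk
    rw [red_snd_length, ← hsdef] at hk
    have hg : (red x).2.getD k (0, 0) = if k % s = 0 then x.2.getD (k / s) (0, 0) else (0, 0) :=
      getD_map_range (st x * x.2.length) (fun i =>
        if i % st x = 0 then x.2.getD (i / st x) (0, 0) else (0, 0)) (0, 0) hk
    rw [hg, spr]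
    split_ifs with h
    · exact ha.2 _ (Nat.div_lt_of_lt_mul hk)
    · simp

theorem LC_spr {s : ℕ} (hs : 3 ≤ s) (a : ℕ → ℚ) : LC (spr s a) = spr s (fun n => a n ^ 2) := by
  have hs0 : 0 < s := by omega
  funext m
  have key : (if m = 0 then 0 else spr s a (m - 1)) * spr s a (m + 1) = 0 := by
    by_cases hm : m = 0
    · rw [if_pos hm, zero_mul]
    · rw [if_neg hm]
      by_cases h1 : (m - 1) % s = 0
      · have h2 : (m + 1) % s ≠ 0 := by
          obtain ⟨k, hk⟩ := Nat.dvd_of_mod_eq_zero h1
          have h3 : m + 1 = s * k + 2 := by omega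
          rw [h3, Nat.mul_add_mod, Nat.mod_eq_of_lt (by omega)]
          omega
        rw [spr, spr, if_neg h2, mul_zero]
      · rw [spr, if_neg h1, zero_mul]
  show spr s a m ^ 2 - _ = _
  rw [key, sub_zero, spr, spr]
  split_ifs
  · rfl
  · norm_num

theorem iter_LC_spr {s : ℕ} (hs : 3 ≤ s) (a : ℕ → ℚ) (i : ℕ) :
    LC^[i] (spr s a) = spr s (fun n => a n ^ 2 ^ i) := by
  induction i with
  | zero => simp
  | succ i ih =>
    rw [Function.iterate_succ_apply', ih, LC_spr hs]
    congr 1
    funext n
    rw [← pow_mul, pow_succ]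

theorem infLC_spr {s : ℕ} (hs : 3 ≤ s) (a : ℕ → ℚ) : InfLC (spr s a) ↔ ∀ n, 0 ≤ a n := by
  constructor
  · intro h n
    have h1 := h 0 (s * n)
    rw [Function.iterate_zero, id_eq, spr, if_pos (Nat.mul_mod_right _ _),
      Nat.mul_div_cancel_left _ (by omega)] at h1
    exact h1
  · intro h i n
    rw [iter_LC_spr hs, spr]
    split_ifs
    · exact pow_nonneg (h _) _
    · exact le_rfl

theorem three_le_st (x : Inp) : 3 ≤ st x := by
  have := CC_pos (x.1.getD (x.1.length - 1) [])
  unfold st
  omega

end Pool.Agent.Helper4.IL
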