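import Pool.Agent.Helper4.IL.PrimC

/-!
# One reduction for both cases
-/

set_option autoImplicit false

namespace Pool.Agent.Helper4.IL

/-- the maximal length -/
def ml (x : Inp) : ℕ := x.1.foldr (fun p acc => max p.length acc) 0

theorem cf_iff (x : Inp) : ml x ≤ 1 ↔ CF x := by
  rw [ml, CF]
  generalize x.1 = l
  induction l with
  | nil => simp
  | cons p l ih =>
    rw [List.foldr_cons, List.forall_mem_cons, ← ih]
    exact max_le_iff

/-- the reduction -/
def redU (K : ℕ) (x : Inp) : Inp := if ml x ≤ 1 then redC K x else red x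

theorem primrec_redU (K : ℕ) : Primrec (redU K) := by
  have hh : Primrec₂ (fun (_ : Inp) (q : List ℤ × ℕ) => max q.1.length q.2) :=
    Primrec.nat_max.comp (Primrec.list_length.comp (Primrec.fst.comp Primrec.snd))
      (Primrec.snd.comp Primrec.snd)
  have h1 : Primrec ml := Primrec.list_foldr (f := fun x : Inp => x.1) (g := fun _ => 0) Primrec.fst
    (Primrec.const 0) hh
  exact Primrec.ite (Primrec.nat_le.comp h1 (Primrec.const 1)) (primrec_redC K) primrec_red

theorem redU_spec (K : ℕ) {x : Inp} (hx : Std x) : Std (redU K x) ∧ ∃ a b : ℕ → ℚ,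
    (∀ a', Sol x a' ↔ a' = a) ∧ (∀ b', Sol (redU K x) b' ↔ b' = b) ∧
    (InfLC b ↔ ∀ n, 0 ≤ a n) ∧ (CF x → CF (redU K x) ∧ ∀ i ≤ K, ∀ n, 0 ≤ (LC^[i] b) n) := by
  have ha := sol_sol hx
  have hu : ∀ {y : Inp}, Std y → ∀ {c : ℕ → ℚ}, Sol y c → ∀ c', Sol y c' ↔ c' = c :=
    fun hy c hc c' => ⟨fun h => sol_unique hy h hc, fun h => h ▸ hc⟩
  by_cases hc : CF x
  · have h1 : redU K x = redC K x := if_pos ((cf_iff x).2 hc)
    rw [h1]
    exact ⟨std_redC K hx hc, sol x, bs (XX K x) (YY K x (sol x)), hu hx ha,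
      hu (std_redC K hx hc) (sol_redC K hx hc ha), infLC_redC K hx hc ha,
      fun _ => ⟨cf_redC K x, near_redC K hx hc ha⟩⟩
  · have h1 : redU K x = red x := if_neg fun h => hc ((cf_iff x).1 h)
    rw [h1]
    exact ⟨std_red hx, sol x, spr (st x) (sol x), hu hx ha, hu (std_red hx) (sol_red hx ha),
      infLC_spr (three_le_st x) _, fun h => absurd h hc⟩

end Pool.Agent.Helper4.IL
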